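import Pool.Agent.helper65.GD.SpecF

set_option autoImplicit false

namespace Pool.Agent.GD

open Finset Metric Filter Topology

theorem XCB_mom {N : ℕ} (w : Fin N → ℝ) (x : Fin N → ℂ) (h : Atomic N w x) (m : ℕ) :
    ‖mom w x m‖ ≤ 1 := by
  unfold mom
  refine (norm_sum_le _ _).trans ?_
  rw [← h.2.1]
  refine le_of_eq (Finset.sum_congr rfl fun l _ => ?_)
  rw [norm_mul, norm_pow, h.2.2 l, one_pow, mul_one, Complex.norm_real, Real.norm_eq_abs,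
    abs_of_nonneg (h.1 l)]

theorem XCB_app (β : ℕ → ℂ) (m : ℕ) (h : Approx β) : ‖β m‖ ≤ 1 := by
  refine le_of_forall_pos_le_add fun ε hε => ?_
  obtain ⟨N, w, x, hA, hm⟩ := h m ε hε
  have h1 := hm m le_rfl
  have h2 := XCB_mom w x hA m
  have h3 : β m = mom w x m - (mom w x m - β m) := by ring
  calc ‖β m‖ = ‖mom w x m - (mom w x m - β m)‖ := by rw [← h3]
    _ ≤ ‖mom w x m‖ + ‖mom w x m - β m‖ := norm_sub_le _ _
    _ ≤ 1 + ε := add_le_add h2 h1.le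

theorem XCB : XCB_stmt := by
  refine ⟨fun β m h => XCB_app β m h, ?_⟩
  rintro Q m ⟨-, κ, μ, hμ, hκ, hQ⟩ hm
  have h1 : ‖κ‖ ≤ 1 := by
    have h2 : κ.re ≤ ‖κ‖ := Complex.re_le_norm κ
    by_contra hlt
    have h3 : 1 < ‖κ‖ := not_le.1 hlt
    nlinarith
  have h2 := XCB_app μ m hμ
  rw [hQ m hm, norm_mul, norm_mul, Complex.norm_ofNat]
  have h3 : ‖κ‖ * ‖μ m‖ ≤ 1 * 1 := mul_le_mul h1 h2 (norm_nonneg _) zero_le_one
  nlinarith [norm_nonneg κ, norm_nonneg (μ m)]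

end Pool.Agent.GD
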