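import Pool.Agent.helper65.GD.SpecF

set_option autoImplicit false

namespace Pool.Agent.GD

open Finset Metric Filter Topology

theorem XLB : XLB_stmt := by
  intro N w x m h
  set c : ℂ := mom w x 1 with hc
  have hc1 : c = ∑ l, (w l : ℂ) * x l := by
    rw [hc]
    unfold mom
    simp
  have h1 : mom w x (m + 1) - 2 * c * mom w x m = ∑ l, (w l : ℂ) * ((x l - 2 * c) * x l ^ m) := by
    unfold mom
    rw [Finset.mul_sum, ← Finset.sum_sub_distrib]
    refine Finset.sum_congr rfl fun l _ => ?_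
    rw [pow_succ]
    ring
  have h2 : ∀ l, ‖x l - 2 * c‖ ^ 2 = 1 + 4 * Complex.normSq c -
      4 * (x l * (starRingEnd ℂ) c).re := by
    intro l
    have h3 : Complex.normSq (x l) = 1 := by
      rw [Complex.normSq_eq_norm_sq, h.2.2 l, one_pow]
    rw [← Complex.normSq_eq_norm_sq, Complex.normSq_sub, h3, Complex.normSq_mul, map_mul (starRingEnd ℂ)]
    have h4 : Complex.normSq 2 = 4 := by
      rw [Complex.normSq_apply]
      norm_num
    have h5 : (x l * ((starRingEnd ℂ) 2 * (starRingEnd ℂ) c)).re =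
        2 * (x l * (starRingEnd ℂ) c).re := by
      have h6 : (starRingEnd ℂ) (2 : ℂ) = 2 := by
        exact Complex.conj_ofReal 2
      rw [h6, show x l * (2 * (starRingEnd ℂ) c) = 2 * (x l * (starRingEnd ℂ) c) by ring]
      simp [Complex.mul_re]
    rw [h4, h5]
    ring
  have h3 : ∑ l, w l * (x l * (starRingEnd ℂ) c).re = Complex.normSq c := by
    have h4 : ∑ l, w l * (x l * (starRingEnd ℂ) c).re = (c * (starRingEnd ℂ) c).re := by
      conv_rhs => rw [hc1]
      rw [Finset.sum_mul, Complex.re_sum]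
      refine Finset.sum_congr rfl fun l _ => ?_
      rw [mul_assoc, Complex.re_ofReal_mul]
      rw [hc1]
    rw [h4, Complex.mul_conj]
    simp
  have h4 : ∑ l, w l * ‖x l - 2 * c‖ ^ 2 = 1 := by
    have h5 : ∀ l, w l * ‖x l - 2 * c‖ ^ 2 = w l + 4 * Complex.normSq c * w l -
        4 * (w l * (x l * (starRingEnd ℂ) c).re) := by
      intro l
      rw [h2 l]
      ring
    rw [Finset.sum_congr rfl fun l _ => h5 l, Finset.sum_sub_distrib, Finset.sum_add_distrib,
      ← Finset.mul_sum, ← Finset.mul_sum, h3, h.2.1]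
    ring
  rw [h1]
  calc ‖∑ l, (w l : ℂ) * ((x l - 2 * c) * x l ^ m)‖
      ≤ ∑ l, ‖(w l : ℂ) * ((x l - 2 * c) * x l ^ m)‖ := norm_sum_le _ _
    _ = ∑ l, w l * ‖x l - 2 * c‖ := by
        refine Finset.sum_congr rfl fun l _ => ?_
        rw [norm_mul, norm_mul, norm_pow, h.2.2 l, one_pow, mul_one, Complex.norm_real,
          Real.norm_eq_abs, abs_of_nonneg (h.1 l)]
    _ ≤ ∑ l, (w l * (1 / 2) + (w l * ‖x l - 2 * c‖ ^ 2) * (1 / 2)) := by
        refine Finset.sum_le_sum fun l _ => ?_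
        have := mul_nonneg (h.1 l) (sq_nonneg (‖x l - 2 * c‖ - 1))
        nlinarith
    _ = 1 := by
        rw [Finset.sum_add_distrib, ← Finset.sum_mul, ← Finset.sum_mul, h4, h.2.1]
        norm_num

end Pool.Agent.GD
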